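import Mathlib
import Pool.Agent.V11254.MTLEl

/-!
# There is no least axiomatic extension of MTL with deductive interpolation
-/

set_option autoImplicit false
set_option linter.unusedVariables false

namespace Pool.Agent.Results.MP_acc005_lc.NoLeast

open Pool.Agent.V11254.FLewEl (FLew Fml eval imp_eq_one le_one' eval_subst eval_congr)
open Pool.Agent.V11254.MTLEl (MTL)

/-! ### Definitions -/

/-- The consequence relation of `MTL`: truth preservation in all MTL-algebras. -/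
def Cons (Γ : Set Fml) (φ : Fml) : Prop :=
  ∀ (A : Type) (_ : MTL A) (v : ℕ → A), (∀ ψ ∈ Γ, eval v ψ = 1) → eval v φ = 1

/-- `L` is an axiomatic extension of `MTL`: it is obtained by adding a set of axioms closed
under substitution. -/
def IsAxExt (L : Set Fml → Fml → Prop) : Prop :=
  ∃ Ax : Set Fml, (∀ σ : ℕ → Fml, ∀ φ ∈ Ax, φ.subst σ ∈ Ax) ∧
    ∀ (Γ : Set Fml) (φ : Fml), L Γ φ ↔ Cons (Ax ∪ Γ) φ

/-- the variables of a set of formulas -/
def Vars (Γ : Set Fml) : Set ℕ := {n | ∃ γ ∈ Γ, n ∈ γ.vars}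

/-- The deductive interpolation property. -/
def DIP (L : Set Fml → Fml → Prop) : Prop :=
  ∀ (Γ : Set Fml) (φ : Fml), L Γ φ → ∃ P : Set Fml, Vars P ⊆ Vars Γ ∩ φ.vars ∧
    (∀ π ∈ P, L Γ π) ∧ L P φ

/-! ### Conjunctions -/

/-- conjunction of a list -/
def conj : List Fml → Fml
  | [] => .e
  | φ :: l => .and φ (conj l)

theorem inf_eq_one {A : Type} [FLew A] {x y : A} : x ⊓ y = 1 ↔ x = 1 ∧ y = 1 := by
  rw [← FLew.top_eq_one]; exact inf_eq_top_iff

theorem eval_conj {A : Type} [FLew A] (v : ℕ → A) (l : List Fml) :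
    eval v (conj l) = 1 ↔ ∀ φ ∈ l, eval v φ = 1 := by
  induction l with
  | nil => exact ⟨fun _ φ h => absurd h List.not_mem_nil, fun _ => rfl⟩
  | cons φ l ih =>
    show eval v φ ⊓ eval v (conj l) = 1 ↔ _
    rw [inf_eq_one, ih, List.forall_mem_cons]

theorem vars_conj (l : List Fml) (Z : Set ℕ) (h : ∀ φ ∈ l, φ.vars ⊆ Z) : (conj l).vars ⊆ Z := by
  induction l with
  | nil => exact Set.empty_subset Z
  | cons φ l ih =>
    rw [List.forall_mem_cons] at h
    exact Set.union_subset h.1 (ih h.2)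

theorem vars_pow5 (φ : Fml) : φ.pow5.vars = φ.vars := by
  show φ.vars ∪ (φ.vars ∪ (φ.vars ∪ (φ.vars ∪ φ.vars))) = φ.vars
  simp

/-- `¬ φ ^ 5` -/
def np (φ : Fml) : Fml := φ.pow5.neg

theorem vars_np (φ : Fml) : (np φ).vars = φ.vars := by
  show φ.pow5.vars ∪ ∅ = φ.vars
  rw [Set.union_empty, vars_pow5]

/-! ### The logic of a finite simple chain -/

section FinAlg

variable {A : Type} [MTL A] [Finite A]

/-- the axiomatic extension given by `A` -/
def LA (A : Type) [MTL A] (Γ : Set Fml) (φ : Fml) : Prop :=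
  Cons ({ψ | ∀ v : ℕ → A, eval v ψ = 1} ∪ Γ) φ

omit [Finite A] in
theorem LA_ext : IsAxExt (LA A) :=
  ⟨{ψ | ∀ v : ℕ → A, eval v ψ = 1}, fun σ φ hφ v => by rw [eval_subst]; exact hφ _,
    fun Γ φ => Iff.rfl⟩

/-- compactness for valuations in a finite algebra -/
theorem compactness {Δ : Set Fml}
    (h : ∀ F : Finset Fml, (∀ ζ ∈ F, ζ ∈ Δ) → ∃ u : ℕ → A, ∀ ζ ∈ F, eval u ζ = 1) :
    ∃ u : ℕ → A, ∀ ζ ∈ Δ, eval u ζ = 1 := by
  classical
  have h' : ∀ F : Finset Fml, ∃ u : ℕ → A, ∀ ζ ∈ F, ζ ∈ Δ → eval u ζ = 1 := by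
    intro F
    obtain ⟨u, hu⟩ := h (F.filter (· ∈ Δ)) fun ζ hζ => (Finset.mem_filter.1 hζ).2
    exact ⟨u, fun ζ hζ hΔ => hu ζ (Finset.mem_filter.2 ⟨hζ, hΔ⟩)⟩
  choose u hu using h'
  let U : Ultrafilter (Finset Fml) := Ultrafilter.of Filter.atTop
  have hX : ∀ f : Finset Fml → A, ∃ a, ∀ᶠ F in (U : Filter (Finset Fml)), f F = a := by
    intro f
    by_contra hc
    rw [not_exists] at hc
    have h1 : ∀ᶠ F in (U : Filter (Finset Fml)), ∀ a : A, f F ≠ a := by
      rw [Filter.eventually_all]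
      intro a
      exact Ultrafilter.eventually_not.2 (hc a)
    obtain ⟨F, hF⟩ := h1.exists
    exact hF _ rfl
  choose x hx using fun n => hX fun F => u F n
  refine ⟨x, fun ζ hζ => ?_⟩
  have key : ∀ ζ : Fml, ∀ᶠ F in (U : Filter (Finset Fml)), eval (u F) ζ = eval x ζ := by
    intro ζ
    induction ζ with
    | var n => exact hx n
    | e => exact Filter.Eventually.of_forall fun F => rfl
    | f => exact Filter.Eventually.of_forall fun F => rfl
    | and φ ψ ih1 ih2 =>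
      refine (ih1.and ih2).mono fun F hF => ?_
      show _ ⊓ _ = _ ⊓ _
      rw [hF.1, hF.2]
    | or φ ψ ih1 ih2 =>
      refine (ih1.and ih2).mono fun F hF => ?_
      show _ ⊔ _ = _ ⊔ _
      rw [hF.1, hF.2]
    | mul φ ψ ih1 ih2 =>
      refine (ih1.and ih2).mono fun F hF => ?_
      show _ * _ = _ * _
      rw [hF.1, hF.2]
    | imp φ ψ ih1 ih2 =>
      refine (ih1.and ih2).mono fun F hF => ?_
      show FLew.imp _ _ = FLew.imp _ _
      rw [hF.1, hF.2]
  have h1 : ∀ᶠ F : Finset Fml in Filter.atTop, ζ ∈ F := by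
    filter_upwards [Filter.eventually_ge_atTop ({ζ} : Finset Fml)] with F hF
    exact hF (Finset.mem_singleton_self ζ)
  have h2 := h1.filter_mono (Ultrafilter.of_le _)
  obtain ⟨F, hF1, hF2⟩ := ((key ζ).and h2).exists
  rw [← hF1]
  exact hu F ζ hF2 hζ

/-- `A` is simple in a uniform way and its elements are separated by formulas in one variable -/
structure Nice (A : Type) [MTL A] : Prop where
  pow : ∀ x : A, x ≠ 1 → x * (x * (x * (x * x))) = ⊥
  ne : (⊥ : A) ≠ 1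
  sep : ∀ x y : A, x ≠ y → ∃ θ : Fml, θ.vars ⊆ {0} ∧
    ¬ (eval (fun _ => x) θ = 1 ↔ eval (fun _ => y) θ = 1)

variable (hA : Nice A)

include hA

omit [Finite A] in
theorem eval_np (u : ℕ → A) (φ : Fml) : eval u (np φ) = 1 ↔ eval u φ ≠ 1 := by
  show FLew.imp (eval u φ * (eval u φ * (eval u φ * (eval u φ * eval u φ)))) ⊥ = 1 ↔ _
  rw [imp_eq_one, le_bot_iff]
  constructor
  · intro h h1
    rw [h1] at h
    simp only [mul_one] at h
    exact hA.ne h.symm
  · exact hA.pow _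

omit hA in
theorem not_satis {Δ : Set Fml} (h : ¬ ∃ u : ℕ → A, ∀ ζ ∈ Δ, eval u ζ = 1) :
    ∃ F : Finset Fml, (∀ ζ ∈ F, ζ ∈ Δ) ∧ ∀ u : ℕ → A, ∃ ζ ∈ F, eval u ζ ≠ 1 := by
  by_contra hc
  apply h
  refine compactness fun F hF => ?_
  by_contra hn
  apply hc
  refine ⟨F, hF, fun u => ?_⟩
  by_contra hz
  apply hn
  refine ⟨u, fun ζ hζ => ?_⟩
  by_contra h1
  exact hz ⟨ζ, hζ, h1⟩

theorem LA_iff (Γ : Set Fml) (φ : Fml) : LA A Γ φ ↔
    ∀ u : ℕ → A, (∀ γ ∈ Γ, eval u γ = 1) → eval u φ = 1 := by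
  classical
  constructor
  · intro h u hu
    refine h A inferInstance u ?_
    rintro ψ (hψ | hψ)
    · exact hψ u
    · exact hu ψ hψ
  · intro h
    have hn : ¬ ∃ u : ℕ → A, ∀ ζ ∈ Γ ∪ {np φ}, eval u ζ = 1 := by
      rintro ⟨u, hu⟩
      exact (eval_np hA u φ).1 (hu _ (Or.inr rfl)) (h u fun γ hγ => hu γ (Or.inl hγ))
    obtain ⟨F, hF, hF'⟩ := not_satis hn
    let l : List Fml := (F.filter (· ∈ Γ)).toList
    have hl : ∀ ψ, ψ ∈ l ↔ ψ ∈ F ∧ ψ ∈ Γ := by
      intro ψ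
      rw [Finset.mem_toList, Finset.mem_filter]
    have hθ : ∀ u : ℕ → A, eval u ((conj l).pow5.imp φ) = 1 := by
      intro u
      show FLew.imp (eval u (conj l) * (eval u (conj l) * (eval u (conj l) *
        (eval u (conj l) * eval u (conj l))))) (eval u φ) = 1
      rw [imp_eq_one]
      by_cases h1 : eval u (conj l) = 1
      · have h2 : eval u φ = 1 := by
          by_contra h2
          obtain ⟨ζ, hζ, hζ'⟩ := hF' u
          rcases hF ζ hζ with h3 | h3
          · exact hζ' ((eval_conj u l).1 h1 ζ ((hl ζ).2 ⟨hζ, h3⟩))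
          · rw [show ζ = np φ from h3] at hζ'
            exact hζ' ((eval_np hA u φ).2 h2)
        rw [h2]
        exact le_one' _
      · rw [hA.pow _ h1]
        exact bot_le
    intro M _ v hv
    have h1 : eval v (conj l) = 1 := (eval_conj v l).2 fun ψ hψ => hv ψ (Or.inr ((hl ψ).1 hψ).2)
    have h2 : FLew.imp (eval v (conj l) * (eval v (conj l) * (eval v (conj l) *
        (eval v (conj l) * eval v (conj l))))) (eval v φ) = 1 := hv _ (Or.inl hθ)
    rw [imp_eq_one, h1] at h2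
    simp only [mul_one] at h2
    exact le_antisymm (le_one' _) h2

theorem satis_over {Γ : Set Fml} (w : ℕ → A) (Z : Set ℕ)
    (h : ∀ ζ : Fml, ζ.vars ⊆ Z → LA A Γ ζ → eval w ζ = 1) :
    ∃ u : ℕ → A, (∀ γ ∈ Γ, eval u γ = 1) ∧
      ∀ ζ : Fml, ζ.vars ⊆ Z → (eval u ζ = 1 ↔ eval w ζ = 1) := by
  classical
  by_contra hc
  have hn : ¬ ∃ u : ℕ → A, ∀ ζ ∈ Γ ∪ {ζ | ζ.vars ⊆ Z ∧ eval w ζ = 1}, eval u ζ = 1 := by
    rintro ⟨u, hu⟩
    apply hc
    refine ⟨u, fun γ hγ => hu γ (Or.inl hγ), fun ζ hζ => ⟨fun h1 => ?_, fun h1 =>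
      hu ζ (Or.inr ⟨hζ, h1⟩)⟩⟩
    by_contra h2
    exact (eval_np hA u ζ).1
      (hu (np ζ) (Or.inr ⟨by rw [vars_np]; exact hζ, (eval_np hA w ζ).2 h2⟩)) h1
  obtain ⟨F, hF, hF'⟩ := not_satis hn
  let l : List Fml := (F.filter (fun ζ => ζ.vars ⊆ Z ∧ eval w ζ = 1)).toList
  have hl : ∀ ψ, ψ ∈ l ↔ ψ ∈ F ∧ (ψ.vars ⊆ Z ∧ eval w ψ = 1) := by
    intro ψ
    rw [Finset.mem_toList, Finset.mem_filter]
  have hw : eval w (conj l) = 1 := (eval_conj w l).2 fun ψ hψ => ((hl ψ).1 hψ).2.2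
  have hL : LA A Γ (np (conj l)) := by
    rw [LA_iff hA]
    intro u hu
    rw [eval_np hA]
    intro h1
    obtain ⟨ζ, hζ, hζ'⟩ := hF' u
    rcases hF ζ hζ with h3 | h3
    · exact hζ' (hu ζ h3)
    · exact hζ' ((eval_conj u l).1 h1 ζ ((hl ζ).2 ⟨hζ, h3⟩))
  have hv : (np (conj l)).vars ⊆ Z := by
    rw [vars_np]
    exact vars_conj l Z fun ψ hψ => ((hl ψ).1 hψ).2.1
  exact (eval_np hA w _).1 (h _ hv hL) hw

theorem LA_dip : DIP (LA A) := by
  classical
  intro Γ φ hφ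
  refine ⟨{π | π.vars ⊆ Vars Γ ∩ φ.vars ∧ LA A Γ π}, ?_, fun π hπ => hπ.2, ?_⟩
  · rintro n ⟨γ, hγ, hn⟩
    exact hγ.1 hn
  by_contra hc
  rw [LA_iff hA] at hc
  push Not at hc
  obtain ⟨w, hw, hwφ⟩ := hc
  obtain ⟨u, huΓ, huw⟩ := satis_over hA (Γ := Γ) w (Vars Γ ∩ φ.vars)
    fun ζ hζ hζ' => hw ζ ⟨hζ, hζ'⟩
  have h4 : ∀ n ∈ Vars Γ ∩ φ.vars, u n = w n := by
    intro n hn
    by_contra hne
    obtain ⟨θ, hθ, hθ'⟩ := hA.sep _ _ hne
    apply hθ'
    have h5 : ∀ v : ℕ → A, eval v (θ.subst fun _ => .var n) = eval (fun _ => v n) θ :=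
      fun v => eval_subst _ v θ
    rw [← h5 u, ← h5 w]
    apply huw
    have h6 : ∀ θ : Fml, (θ.subst fun _ => .var n).vars ⊆ {n} := by
      intro θ
      induction θ with
      | var m => exact subset_rfl
      | e => exact Set.empty_subset _
      | f => exact Set.empty_subset _
      | and φ ψ ih1 ih2 => exact Set.union_subset ih1 ih2
      | or φ ψ ih1 ih2 => exact Set.union_subset ih1 ih2
      | mul φ ψ ih1 ih2 => exact Set.union_subset ih1 ih2
      | imp φ ψ ih1 ih2 => exact Set.union_subset ih1 ih2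
    exact (h6 θ).trans (Set.singleton_subset_iff.2 hn)
  let t : ℕ → A := fun n => if n ∈ Vars Γ then u n else w n
  have h5 : ∀ γ ∈ Γ, eval t γ = 1 := by
    intro γ hγ
    have : eval t γ = eval u γ := eval_congr γ fun n hn => if_pos ⟨γ, hγ, hn⟩
    rw [this]
    exact huΓ γ hγ
  have h6 : eval t φ = 1 := (LA_iff hA Γ φ).1 hφ t h5
  have h7 : eval t φ = eval w φ := by
    refine eval_congr φ fun n hn => ?_
    by_cases h : n ∈ Vars Γ
    · exact (if_pos h).trans (h4 n ⟨h, hn⟩)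
    · exact if_neg h
  rw [h7] at h6
  exact hwφ h6

end FinAlg

/-! ### Two five-element chains -/

/-- the order, meet and join are those of `Fin 5` -/
def mulP (a b : Fin 5) : Fin 5 :=
  (![![0, 0, 0, 0, 0],
    ![0, 0, 0, 0, 1],
    ![0, 0, 0, 1, 2],
    ![0, 0, 1, 1, 3],
    ![0, 1, 2, 3, 4]] : Fin 5 → Fin 5 → Fin 5) a b

def impP (a b : Fin 5) : Fin 5 :=
  (![![4, 4, 4, 4, 4],
    ![3, 4, 4, 4, 4],
    ![2, 3, 4, 4, 4],
    ![1, 3, 3, 4, 4],
    ![0, 1, 2, 3, 4]] : Fin 5 → Fin 5 → Fin 5) a b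

def mulQ (a b : Fin 5) : Fin 5 :=
  (![![0, 0, 0, 0, 0],
    ![0, 0, 0, 0, 1],
    ![0, 0, 0, 1, 2],
    ![0, 0, 1, 2, 3],
    ![0, 1, 2, 3, 4]] : Fin 5 → Fin 5 → Fin 5) a b

def impQ (a b : Fin 5) : Fin 5 :=
  (![![4, 4, 4, 4, 4],
    ![3, 4, 4, 4, 4],
    ![2, 3, 4, 4, 4],
    ![1, 2, 3, 4, 4],
    ![0, 1, 2, 3, 4]] : Fin 5 → Fin 5 → Fin 5) a b

/-- the first chain -/
def P5 : Type := Fin 5
/-- the second chain -/
def Q5 : Type := Fin 5

instance : Finite P5 := inferInstanceAs (Finite (Fin 5))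
instance : Finite Q5 := inferInstanceAs (Finite (Fin 5))

instance : LinearOrder P5 := inferInstanceAs (LinearOrder (Fin 5))
instance : LinearOrder Q5 := inferInstanceAs (LinearOrder (Fin 5))

instance : MTL P5 where
  __ := (inferInstance : LinearOrder P5)
  sup := max
  le_sup_left := le_max_left
  le_sup_right := le_max_right
  sup_le := fun _ _ _ => max_le
  inf := min
  inf_le_left := min_le_left
  inf_le_right := min_le_right
  le_inf := fun _ _ _ => le_min
  mul := mulP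
  one := (4 : Fin 5)
  mul_assoc := (by decide : ∀ a b c : Fin 5, mulP (mulP a b) c = mulP a (mulP b c))
  mul_comm := (by decide : ∀ a b : Fin 5, mulP a b = mulP b a)
  one_mul := (by decide : ∀ a : Fin 5, mulP 4 a = a)
  mul_one := (by decide : ∀ a : Fin 5, mulP a 4 = a)
  top := (4 : Fin 5)
  bot := (0 : Fin 5)
  le_top := (by decide : ∀ a : Fin 5, a ≤ 4)
  bot_le := (by decide : ∀ a : Fin 5, 0 ≤ a)
  imp := impP
  top_eq_one := rfl
  residuation := (by decide : ∀ a b c : Fin 5, mulP a b ≤ c ↔ a ≤ impP b c)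
  prelin := (by decide : ∀ a b : Fin 5, max (impP a b) (impP b a) = 4)

instance : MTL Q5 where
  __ := (inferInstance : LinearOrder Q5)
  sup := max
  le_sup_left := le_max_left
  le_sup_right := le_max_right
  sup_le := fun _ _ _ => max_le
  inf := min
  inf_le_left := min_le_left
  inf_le_right := min_le_right
  le_inf := fun _ _ _ => le_min
  mul := mulQ
  one := (4 : Fin 5)
  mul_assoc := (by decide : ∀ a b c : Fin 5, mulQ (mulQ a b) c = mulQ a (mulQ b c))
  mul_comm := (by decide : ∀ a b : Fin 5, mulQ a b = mulQ b a)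
  one_mul := (by decide : ∀ a : Fin 5, mulQ 4 a = a)
  mul_one := (by decide : ∀ a : Fin 5, mulQ a 4 = a)
  top := (4 : Fin 5)
  bot := (0 : Fin 5)
  le_top := (by decide : ∀ a : Fin 5, a ≤ 4)
  bot_le := (by decide : ∀ a : Fin 5, 0 ≤ a)
  imp := impQ
  top_eq_one := rfl
  residuation := (by decide : ∀ a b c : Fin 5, mulQ a b ≤ c ↔ a ≤ impQ b c)
  prelin := (by decide : ∀ a b : Fin 5, max (impQ a b) (impQ b a) = 4)

/-- four formulas in one variable -/
def sepF (i : Fin 4) : Fml :=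
  (![.var 0, (Fml.var 0).neg, (Fml.var 0).imp (Fml.var 0).neg,
    (Fml.var 0).neg.imp (.var 0)] : Fin 4 → Fml) i

theorem sepF_vars (i : Fin 4) : (sepF i).vars ⊆ {0} := by
  fin_cases i <;> simp [sepF, Fml.neg, Fml.vars]

theorem niceP : Nice P5 where
  pow := (by decide : ∀ x : Fin 5, x ≠ 4 → mulP x (mulP x (mulP x (mulP x x))) = 0)
  ne := (by decide : (0 : Fin 5) ≠ 4)
  sep := by
    have key : ∀ x y : Fin 5, x ≠ y → ∃ i : Fin 4,
        ¬ ((![x, impP x 0, impP x (impP x 0), impP (impP x 0) x] : Fin 4 → Fin 5) i = 4 ↔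
          (![y, impP y 0, impP y (impP y 0), impP (impP y 0) y] : Fin 4 → Fin 5) i = 4) := by
      decide
    intro x y h
    obtain ⟨i, hi⟩ := key x y h
    refine ⟨sepF i, sepF_vars i, ?_⟩
    fin_cases i <;> exact hi

theorem niceQ : Nice Q5 where
  pow := (by decide : ∀ x : Fin 5, x ≠ 4 → mulQ x (mulQ x (mulQ x (mulQ x x))) = 0)
  ne := (by decide : (0 : Fin 5) ≠ 4)
  sep := by
    have key : ∀ x y : Fin 5, x ≠ y → ∃ i : Fin 4,
        ¬ ((![x, impQ x 0, impQ x (impQ x 0), impQ (impQ x 0) x] : Fin 4 → Fin 5) i = 4 ↔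
          (![y, impQ y 0, impQ y (impQ y 0), impQ (impQ y 0) y] : Fin 4 → Fin 5) i = 4) := by
      decide
    intro x y h
    obtain ⟨i, hi⟩ := key x y h
    refine ⟨sepF i, sepF_vars i, ?_⟩
    fin_cases i <;> exact hi

/-! ### Two sets of conditions that cannot be satisfied together -/

section Ineq

variable {A : Type} [MTL A]

theorem mono_l {x y : A} (h : x ≤ y) (z : A) : x * z ≤ y * z := by
  rw [FLew.residuation]
  exact h.trans ((FLew.residuation _ _ _).1 le_rfl)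

theorem mono2 {x y x' y' : A} (h : x ≤ y) (h' : x' ≤ y') : x * x' ≤ y * y' := by
  refine (mono_l h x').trans ?_
  rw [mul_comm y, mul_comm y]
  exact mono_l h' y

theorem mul_le_l (x y : A) : x * y ≤ x := by
  have := mono2 (le_refl x) (le_one' y)
  rwa [mul_one] at this

theorem mul_le_r (x y : A) : x * y ≤ y := by
  rw [mul_comm]; exact mul_le_l y x

theorem mp (x y : A) : x * FLew.imp x y ≤ y := by
  rw [mul_comm, FLew.residuation]

theorem sup_mul_le {a b c t : A} (h1 : a * c ≤ t) (h2 : b * c ≤ t) : (a ⊔ b) * c ≤ t := by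
  rw [FLew.residuation] at *
  exact sup_le h1 h2

theorem sup_pow {p q : A} (h : p ⊔ q = 1) (n : ℕ) : p ^ n ⊔ q = 1 := by
  induction n with
  | zero => rw [pow_zero]; exact sup_eq_left.2 (le_one' q)
  | succ n ih =>
    refine le_antisymm (le_one' _) ?_
    have h1 : (p ⊔ q) * (p ^ n ⊔ q) ≤ p ^ (n + 1) ⊔ q := by
      refine sup_mul_le ?_ ?_
      · rw [mul_comm]
        refine sup_mul_le ?_ ?_
        · rw [← pow_succ]; exact le_sup_left
        · exact (mul_le_l _ _).trans le_sup_right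
      · exact (mul_le_l _ _).trans le_sup_right
    rw [h, ih, mul_one] at h1
    exact h1

theorem nil_split {p q r : A} (h : p ⊔ q = 1) {n m : ℕ} (h1 : (p * r) ^ n ≤ ⊥)
    (h2 : (q * r) ^ m ≤ ⊥) : r ^ (n + m) ≤ ⊥ := by
  have h3 : p ^ n ⊔ q ^ m = 1 := by
    have := sup_pow h n
    rw [sup_comm] at this ⊢
    exact sup_pow this m
  have h4 : (p ^ n ⊔ q ^ m) * r ^ (n + m) ≤ ⊥ := by
    refine sup_mul_le ?_ ?_
    · rw [pow_add, ← mul_assoc, ← mul_pow]
      exact (mul_le_l _ _).trans h1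
    · rw [add_comm, pow_add, ← mul_assoc, ← mul_pow]
      exact (mul_le_l _ _).trans h2
  rwa [h3, one_mul] at h4

theorem pow_mono {x y : A} (h : x ≤ y) (n : ℕ) : x ^ n ≤ y ^ n := by
  induction n with
  | zero => rw [pow_zero, pow_zero]
  | succ n ih => rw [pow_succ, pow_succ]; exact mono2 ih h

theorem nil_mono {x y : A} {j n : ℕ} (h : x ^ j ≤ y) (h1 : y ^ n ≤ ⊥) : x ^ (j * n) ≤ ⊥ := by
  rw [pow_mul]
  exact (pow_mono h n).trans h1

/-- the main inequality -/
theorem main_ineq (a b c k d : A) (hc : c * c ≤ ⊥) (ha : a * (a * a) ≤ ⊥)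
    (h1 : FLew.imp a ⊥ ≤ a * c) (h2 : FLew.imp (FLew.imp a ⊥) ⊥ ≤ a)
    (d1 : d ≤ FLew.imp (FLew.imp k ⊥) k) (d2 : d ≤ FLew.imp k (b * b))
    (d3 : d ≤ FLew.imp (b * b * k) ⊥) : d ^ 39 ≤ ⊥ := by
  -- `v d ≤ …`
  have F1 : FLew.imp k c * d ≤ FLew.imp c k := by
    rw [← FLew.residuation]
    have e1 : FLew.imp k c * c ≤ FLew.imp k ⊥ := by
      rw [← FLew.residuation]
      have : FLew.imp k c * c * k = (k * FLew.imp k c) * c := by ac_rfl
      rw [this]
      exact (mono_l (mp k c) c).trans hc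
    have : FLew.imp k c * d * c = (FLew.imp k c * c) * d := by ac_rfl
    rw [this]
    exact (mono2 e1 d1).trans (mp _ _)
  have F3 : ∀ w1 w2 : A, w1 ≤ FLew.imp c k → w2 ≤ FLew.imp b a →
      (w1 * d * (w2 * w2)) ^ 3 ≤ ⊥ := by
    intro w1 w2 hw1 hw2
    have e1 : c * (w1 * d * (w2 * w2)) ≤ a * a := by
      have e2 : c * (w1 * d * (w2 * w2)) = (c * w1) * d * (w2 * w2) := by ac_rfl
      have e3 : c * w1 ≤ k := (mono2 le_rfl hw1).trans (mp c k)
      have e4 : k * d ≤ b * b := (mono2 le_rfl d2).trans (mp _ _)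
      have e5 : b * w2 ≤ a := (mono2 le_rfl hw2).trans (mp b a)
      have e6 : b * b * (w2 * w2) = (b * w2) * (b * w2) := by ac_rfl
      rw [e2]
      refine (mono_l ((mono_l e3 d).trans e4) _).trans ?_
      rw [e6]
      exact mono2 e5 e5
    have e7 : w1 * d * (w2 * w2) ≤ a := by
      refine le_trans ?_ h2
      rw [← FLew.residuation]
      refine (mono2 le_rfl h1).trans ?_
      have : w1 * d * (w2 * w2) * (a * c) = a * (c * (w1 * d * (w2 * w2))) := by ac_rfl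
      rw [this]
      exact (mono2 le_rfl e1).trans ha
    refine (pow_mono e7 3).trans ?_
    rw [pow_succ, pow_succ, pow_one, mul_assoc]
    exact ha
  have F4 : FLew.imp a b * (FLew.imp c k * d) ≤ FLew.imp b a := by
    rw [← FLew.residuation]
    refine le_trans ?_ h2
    rw [← FLew.residuation]
    refine (mono2 le_rfl h1).trans ?_
    have : FLew.imp a b * (FLew.imp c k * d) * b * (a * c) =
        ((a * FLew.imp a b) * (c * FLew.imp c k) * b) * d := by ac_rfl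
    rw [this]
    have e1 : (a * FLew.imp a b) * (c * FLew.imp c k) * b ≤ b * b * k := by
      refine (mono_l (mono2 (mp a b) (mp c k)) b).trans (le_of_eq (by ac_rfl))
    exact (mono2 e1 d3).trans (mp _ _)
  have pq : FLew.imp a b ⊔ FLew.imp b a = 1 := MTL.prelin a b
  have uv : FLew.imp k c ⊔ FLew.imp c k = 1 := MTL.prelin k c
  -- case `v`
  have Cv : (FLew.imp c k * d) ^ 15 ≤ ⊥ := by
    refine nil_split (n := 9) (m := 6) pq ?_ ?_
    · refine nil_mono (j := 3) (n := 3) ?_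
        (F3 (FLew.imp c k) (FLew.imp a b * (FLew.imp c k * d)) le_rfl F4)
      rw [pow_succ, pow_succ, pow_one, mul_assoc]
      exact mono_l (mul_le_r _ _) _
    · refine nil_mono (j := 2) (n := 3) ?_ (F3 (FLew.imp c k) (FLew.imp b a) le_rfl le_rfl)
      rw [pow_two]
      have : FLew.imp b a * (FLew.imp c k * d) * (FLew.imp b a * (FLew.imp c k * d)) =
        (FLew.imp c k * d * (FLew.imp b a * FLew.imp b a)) * (FLew.imp c k * d) := by ac_rfl
      rw [this]
      exact mul_le_l _ _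
  -- case `u`
  have Cu : (FLew.imp k c * d) ^ 24 ≤ ⊥ := by
    refine nil_split (n := 18) (m := 6) pq ?_ ?_
    · refine nil_mono (j := 6) (n := 3) ?_
        (F3 (FLew.imp k c * d) (FLew.imp a b * (FLew.imp k c * d * d)) F1 ?_)
      · have hx : FLew.imp a b * (FLew.imp k c * d) ≤ FLew.imp k c * d := mul_le_r _ _
        have hxd : FLew.imp a b * (FLew.imp k c * d) ≤ d := hx.trans (mul_le_r _ _)
        have hxx : FLew.imp a b * (FLew.imp k c * d) * (FLew.imp a b * (FLew.imp k c * d)) ≤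
            FLew.imp a b * (FLew.imp k c * d * d) := by
          refine (mono2 le_rfl hxd).trans (le_of_eq (by ac_rfl))
        have e6 : ∀ x : A, x ^ 6 = x * x * (x * x * (x * x)) := by
          intro x
          simp only [pow_succ, pow_zero, one_mul, mul_assoc]
        rw [e6]
        exact mono2 (mono2 hx hxd) (mono2 hxx hxx)
      · refine le_trans ?_ F4
        exact mono2 le_rfl (mono_l F1 d)
    · refine nil_mono (j := 2) (n := 3) ?_ (F3 (FLew.imp k c * d) (FLew.imp b a) F1 le_rfl)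
      rw [pow_two]
      have : FLew.imp b a * (FLew.imp k c * d) * (FLew.imp b a * (FLew.imp k c * d)) =
        (FLew.imp k c * d * d * (FLew.imp b a * FLew.imp b a)) * FLew.imp k c := by ac_rfl
      rw [this]
      exact mul_le_l _ _
  exact nil_split (n := 24) (m := 15) uv Cu Cv

end Ineq

/-! ### The theorem -/

/-- powers of a formula -/
def pw (φ : Fml) : ℕ → Fml
  | 0 => .e
  | n + 1 => .mul (pw φ n) φ

theorem eval_pw {A : Type} [FLew A] (v : ℕ → A) (φ : Fml) (n : ℕ) :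
    eval v (pw φ n) = eval v φ ^ n := by
  induction n with
  | zero => exact (pow_zero _).symm
  | succ n ih =>
    show eval v (pw φ n) * eval v φ = _
    rw [ih, pow_succ]

/-- the conditions on `c` (variable 0) and `a` (variable 1) -/
def Γ₀ : Set Fml :=
  {((Fml.var 0).mul (.var 0)).neg, ((Fml.var 1).mul ((Fml.var 1).mul (.var 1))).neg,
    (Fml.var 1).neg.imp ((Fml.var 1).mul (.var 0)), (Fml.var 1).neg.neg.imp (.var 1)}

/-- the condition on `k` (variable 2) and `b` (variable 3) -/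
def D₀ : Fml :=
  ((Fml.var 2).neg.imp (.var 2)).and (((Fml.var 2).imp ((Fml.var 3).mul (.var 3))).and
    (((Fml.var 3).mul (.var 3)).mul (.var 2)).neg)

/-- the conclusion -/
def ψ₀ : Fml := (pw D₀ 39).neg

theorem main_cons : Cons Γ₀ ψ₀ := by
  intro A _ v hv
  have g1 := hv _ (Or.inl rfl)
  have g2 := hv _ (Or.inr (Or.inl rfl))
  have g3 := hv _ (Or.inr (Or.inr (Or.inl rfl)))
  have g4 := hv _ (Or.inr (Or.inr (Or.inr rfl)))
  replace g1 : FLew.imp (v 0 * v 0) ⊥ = 1 := g1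
  replace g2 : FLew.imp (v 1 * (v 1 * v 1)) ⊥ = 1 := g2
  replace g3 : FLew.imp (FLew.imp (v 1) ⊥) (v 1 * v 0) = 1 := g3
  replace g4 : FLew.imp (FLew.imp (FLew.imp (v 1) ⊥) ⊥) (v 1) = 1 := g4
  rw [imp_eq_one] at g1 g2 g3 g4
  show FLew.imp (eval v (pw D₀ 39)) ⊥ = 1
  rw [imp_eq_one, eval_pw]
  have hD : eval v D₀ = FLew.imp (FLew.imp (v 2) ⊥) (v 2) ⊓ (FLew.imp (v 2) (v 3 * v 3) ⊓
    FLew.imp (v 3 * v 3 * v 2) ⊥) := rfl
  refine main_ineq (v 1) (v 3) (v 0) (v 2) _ g1 g2 g3 g4 ?_ ?_ ?_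
  · rw [hD]; exact inf_le_left
  · rw [hD]; exact inf_le_right.trans inf_le_left
  · rw [hD]; exact inf_le_right.trans inf_le_right

/-- Boolean value of a formula without variables -/
def bval : Fml → Bool
  | .var _ => true
  | .e => true
  | .f => false
  | .and φ ψ => bval φ && bval ψ
  | .or φ ψ => bval φ || bval ψ
  | .mul φ ψ => bval φ && bval ψ
  | .imp φ ψ => !bval φ || bval ψ

theorem eval_bval {A : Type} [FLew A] (v : ℕ → A) (φ : Fml) (h : φ.vars ⊆ ∅) :
    eval v φ = if bval φ then 1 else ⊥ := by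
  have t4 : ∀ x : A, FLew.imp ⊥ x = 1 := fun x => imp_eq_one.2 bot_le
  have t5 : ∀ x : A, FLew.imp x 1 = 1 := fun x => imp_eq_one.2 (le_one' x)
  have t6 : FLew.imp (1 : A) ⊥ = ⊥ := by
    refine le_antisymm ?_ bot_le
    have := (FLew.residuation (FLew.imp (1 : A) ⊥) 1 ⊥).2 le_rfl
    rwa [mul_one] at this
  have t7 : ∀ x : A, x * ⊥ = ⊥ := by
    intro x
    refine le_antisymm ?_ bot_le
    rw [mul_comm, FLew.residuation]
    exact bot_le
  induction φ with
  | var n => exact (h (show n ∈ (Fml.var n).vars from rfl)).elim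
  | e => rfl
  | f => rfl
  | and φ ψ ih1 ih2 =>
    have i1 := ih1 (Set.subset_union_left.trans h)
    have i2 := ih2 (Set.subset_union_right.trans h)
    show eval v φ ⊓ eval v ψ = _
    rw [i1, i2]
    cases h1 : bval φ <;> cases h2 : bval ψ <;> simp [bval, h1, h2]
  | or φ ψ ih1 ih2 =>
    have i1 := ih1 (Set.subset_union_left.trans h)
    have i2 := ih2 (Set.subset_union_right.trans h)
    show eval v φ ⊔ eval v ψ = _
    rw [i1, i2]
    cases h1 : bval φ <;> cases h2 : bval ψ <;> simp [bval, h1, h2]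
  | mul φ ψ ih1 ih2 =>
    have i1 := ih1 (Set.subset_union_left.trans h)
    have i2 := ih2 (Set.subset_union_right.trans h)
    show eval v φ * eval v ψ = _
    rw [i1, i2]
    cases h1 : bval φ <;> cases h2 : bval ψ <;> simp [bval, h1, h2, t7]
  | imp φ ψ ih1 ih2 =>
    have i1 := ih1 (Set.subset_union_left.trans h)
    have i2 := ih2 (Set.subset_union_right.trans h)
    show FLew.imp (eval v φ) (eval v ψ) = _
    rw [i1, i2]
    cases h1 : bval φ <;> cases h2 : bval ψ <;> simp [bval, h1, h2, t4, t5, t6]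

theorem vars_pw (φ : Fml) (n : ℕ) : (pw φ n).vars ⊆ φ.vars := by
  induction n with
  | zero => exact Set.empty_subset _
  | succ n ih => exact Set.union_subset ih subset_rfl

theorem vars_ψ₀ : ψ₀.vars ⊆ {2, 3} := by
  refine Set.union_subset ((vars_pw _ _).trans ?_) (Set.empty_subset _)
  intro n hn
  simp [D₀, Fml.neg, Fml.vars] at hn ⊢
  tauto

theorem vars_Γ₀ : Vars Γ₀ ⊆ {0, 1} := by
  rintro n ⟨γ, hγ, hn⟩
  rcases hγ with rfl | rfl | rfl | rfl <;> simp [Fml.neg, Fml.vars] at hn ⊢ <;> tauto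

theorem cons_mono {Γ Δ : Set Fml} {φ : Fml} (h : Γ ⊆ Δ) (h1 : Cons Γ φ) : Cons Δ φ :=
  fun A _ v hv => h1 A _ v fun ψ hψ => hv ψ (h hψ)

/-- No axiomatic extension of `MTL` with the deductive interpolation property is contained in
both logics of the chains `P5` and `Q5`. -/
theorem no_common (L₀ : Set Fml → Fml → Prop) (hE : IsAxExt L₀) (hD : DIP L₀)
    (hmP : ∀ Γ φ, L₀ Γ φ → LA P5 Γ φ) (hmQ : ∀ Γ φ, L₀ Γ φ → LA Q5 Γ φ) : False := by
  obtain ⟨Ax, -, hL⟩ := hE
  have h1 : L₀ Γ₀ ψ₀ := (hL _ _).2 (cons_mono Set.subset_union_right main_cons)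
  obtain ⟨P, hP, hP1, hP2⟩ := hD _ _ h1
  have hP3 : ∀ π ∈ P, π.vars ⊆ ∅ := by
    intro π hπ n hn
    have h2 := hP ⟨π, hπ, hn⟩
    have h3 := vars_Γ₀ h2.1
    have h4 := vars_ψ₀ h2.2
    simp at h3 h4
    omega
  have hb : ∀ π ∈ P, bval π = true := by
    intro π hπ
    have h2 := hmP _ _ (hP1 π hπ)
    rw [LA_iff niceP] at h2
    let v : ℕ → P5 := fun n => if n = 0 then (2 : Fin 5) else (3 : Fin 5)
    have h3 := h2 v (by
      intro γ hγ
      rcases hγ with rfl | rfl | rfl | rfl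
      · show (impP (mulP 2 2) 0 : Fin 5) = 4
        decide
      · show (impP (mulP 3 (mulP 3 3)) 0 : Fin 5) = 4
        decide
      · show (impP (impP 3 0) (mulP 3 2) : Fin 5) = 4
        decide
      · show (impP (impP (impP 3 0) 0) 3 : Fin 5) = 4
        decide)
    rw [eval_bval v π (hP3 π hπ)] at h3
    by_contra hc
    rw [if_neg hc] at h3
    exact niceP.ne h3
  have h5 := hmQ _ _ hP2
  rw [LA_iff niceQ] at h5
  let v : ℕ → Q5 := fun n => if n = 2 then (2 : Fin 5) else (3 : Fin 5)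
  have h6 := h5 v fun π hπ => by
    rw [eval_bval v π (hP3 π hπ), if_pos (hb π hπ)]
  have hD1 : eval v D₀ = 1 := by
    show (min (impQ (impQ 2 0) 2) (min (impQ 2 (mulQ 3 3)) (impQ (mulQ (mulQ 3 3) 2) 0)) :
      Fin 5) = 4
    decide
  have h7 : FLew.imp (eval v (pw D₀ 39)) ⊥ = 1 := h6
  rw [eval_pw, hD1, one_pow, imp_eq_one] at h7
  exact niceQ.ne (le_antisymm bot_le h7)

/-- There is no least axiomatic extension of `MTL` with the deductive interpolation property. In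
fact there are two axiomatic extensions with this property such that no axiomatic extension of
`MTL` with this property is contained in both. -/
theorem result :
    (¬ ∃ L₀ : Set Fml → Fml → Prop, IsAxExt L₀ ∧ DIP L₀ ∧
      ∀ L : Set Fml → Fml → Prop, IsAxExt L → DIP L → ∀ Γ φ, L₀ Γ φ → L Γ φ) ∧
    ∃ L₁ L₂ : Set Fml → Fml → Prop, IsAxExt L₁ ∧ DIP L₁ ∧ IsAxExt L₂ ∧ DIP L₂ ∧
      ¬ ∃ L₀ : Set Fml → Fml → Prop, IsAxExt L₀ ∧ DIP L₀ ∧
        (∀ Γ φ, L₀ Γ φ → L₁ Γ φ) ∧ ∀ Γ φ, L₀ Γ φ → L₂ Γ φ := by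
  refine ⟨?_, LA P5, LA Q5, LA_ext, LA_dip niceP, LA_ext, LA_dip niceQ, ?_⟩
  · rintro ⟨L₀, h1, h2, h3⟩
    exact no_common L₀ h1 h2 (h3 _ LA_ext (LA_dip niceP)) (h3 _ LA_ext (LA_dip niceQ))
  · rintro ⟨L₀, h1, h2, h3, h4⟩
    exact no_common L₀ h1 h2 h3 h4

end Pool.Agent.Results.MP_acc005_lc.NoLeast
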